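import Mathlib
import Pool.Agent.N109.T3.FreeDefs

/-!
# The curvatures of the one-forms on the hierarchical squares are the closed fields
-/

open MeasureTheory
open Pool.Agent.N989.MK

namespace Pool.Agent.N109.T3

noncomputable section

/-- the total flux of the field `Y` through the square (through the first sheets) -/
def flux : ∀ j, (Pq j → ℝ) → ℝ
  | 0, Y => Y ()
  | j + 1, Y => ∑ r : Fin 4, flux j fun p => Y (0, r, p)

/-- in every square of every level the four sheets have the same flux -/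
def Closed : ∀ j, (Pq j → ℝ) → Prop
  | 0, _ => True
  | j + 1, Y => (∀ s r : Fin 4, Closed j fun p => Y (s, r, p)) ∧
      ∀ s s' : Fin 4, ∑ r : Fin 4, flux j (fun p => Y (s, r, p)) =
        ∑ r : Fin 4, flux j (fun p => Y (s', r, p))

/-- the signed sum over the boundary -/
def bflux {j : ℕ} (V : BE j → ℝ) : ℝ :=
  ∑ k, V (0, k) + ∑ k, V (1, k) - ∑ k, V (2, k) - ∑ k, V (3, k)

lemma cur_succ {n : ℕ} (A : Ed (n + 1) → ℝ) (s q : Fin 4) (p : Pq n) :
    cur A ((s, q, p) : Pq (n + 1)) = cur (fun e => A (emb s q e)) p := rfl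

lemma sum_pos {n : ℕ} (a : Fin (2 ^ (n + 1)) → ℝ) :
    ∑ k, a k = ∑ k : Fin (2 ^ n), a (pos 0 k) + ∑ k : Fin (2 ^ n), a (pos 1 k) := by
  have h1 : 2 ^ (n + 1) = 2 ^ n + 2 ^ n := by rw [pow_succ]; omega
  have h2 : ∑ k, a k = ∑ k : Fin (2 ^ n + 2 ^ n), a (Fin.cast h1.symm k) :=
    (Equiv.sum_comp (finCongr h1.symm) a).symm
  rw [h2, Fin.sum_univ_add]
  congr 1
  · refine Finset.sum_congr rfl fun k _ => congrArg a (Fin.ext ?_)
    simp [pos]
  · refine Finset.sum_congr rfl fun k _ => congrArg a (Fin.ext ?_)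
    simp [pos, add_comm]

/-- the sum over the side `i` of the quarter `q` -/
lemma sum_emb {n : ℕ} (A : Ed (n + 1) → ℝ) (s q i : Fin 4) :
    ∑ k, A (emb s q (.inl (i, k))) = match side q i with
      | .inl (j, h) => ∑ k, A (.inl (j, pos h k))
      | .inr j => ∑ k, A (.inr (.inl (s, j, k))) := by
  have h : ∀ k, emb s q (.inl (i, k)) = (match side q i with
      | .inl (j, h) => .inl (j, pos h k)
      | .inr j => .inr (.inl (s, j, k)) : Ed (n + 1)) := fun k => rfl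
  simp only [h]
  rcases side q i with ⟨j, h⟩ | j
  · rfl
  · rfl

/-- the fluxes of the four quarters of a sheet -/
lemma bflux_emb {n : ℕ} (A : Ed (n + 1) → ℝ) (s : Fin 4) :
    bflux (fun x => A (emb s 0 (.inl x))) = ∑ k, A (.inl (0, pos 0 k)) +
        ∑ k, A (.inr (.inl (s, 2, k))) - ∑ k, A (.inr (.inl (s, 0, k))) -
        ∑ k, A (.inl (3, pos 0 k)) ∧
    bflux (fun x => A (emb s 1 (.inl x))) = ∑ k, A (.inl (0, pos 1 k)) +
        ∑ k, A (.inl (1, pos 0 k)) - ∑ k, A (.inr (.inl (s, 1, k))) -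
        ∑ k, A (.inr (.inl (s, 2, k))) ∧
    bflux (fun x => A (emb s 2 (.inl x))) = ∑ k, A (.inr (.inl (s, 0, k))) +
        ∑ k, A (.inr (.inl (s, 3, k))) - ∑ k, A (.inl (2, pos 0 k)) -
        ∑ k, A (.inl (3, pos 1 k)) ∧
    bflux (fun x => A (emb s 3 (.inl x))) = ∑ k, A (.inr (.inl (s, 1, k))) +
        ∑ k, A (.inl (1, pos 1 k)) - ∑ k, A (.inl (2, pos 1 k)) -
        ∑ k, A (.inr (.inl (s, 3, k))) := by
  unfold bflux
  simp only [sum_emb]
  exact ⟨rfl, rfl, rfl, rfl⟩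

lemma sum_bflux_emb {n : ℕ} (A : Ed (n + 1) → ℝ) (s : Fin 4) :
    ∑ q : Fin 4, bflux (fun x => A (emb s q (.inl x))) = bflux fun x => A (.inl x) := by
  obtain ⟨h0, h1, h2, h3⟩ := bflux_emb A s
  rw [Fin.sum_univ_four, h0, h1, h2, h3]
  unfold bflux
  rw [sum_pos fun k => A (.inl (0, k)), sum_pos fun k => A (.inl (1, k)),
    sum_pos fun k => A (.inl (2, k)), sum_pos fun k => A (.inl (3, k))]
  ring

/-- **Stokes** -/
theorem stokes : ∀ {j : ℕ} (A : Ed j → ℝ),
    Closed j (cur A) ∧ flux j (cur A) = bflux fun x => A (.inl x)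
  | 0, A => by
    refine ⟨trivial, ?_⟩
    show cur A () = _
    unfold cur bflux
    simp [bd]
  | j + 1, A => by
    have ih : ∀ s r : Fin 4, Closed j (fun p => cur A ((s, r, p) : Pq (j + 1))) ∧
        flux j (fun p => cur A ((s, r, p) : Pq (j + 1))) =
          bflux fun x => A (emb s r (.inl x)) := fun s r => stokes fun e => A (emb s r e)
    have h1 : ∀ s : Fin 4, ∑ r : Fin 4, flux j (fun p => cur A ((s, r, p) : Pq (j + 1))) =
        bflux fun x => A (.inl x) := fun s => by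
      rw [← sum_bflux_emb A s]
      exact Finset.sum_congr rfl fun r _ => (ih s r).2
    exact ⟨⟨fun s r => (ih s r).1, fun s s' => (h1 s).trans (h1 s').symm⟩, h1 0⟩

/-- **Poincaré**, with given values on the boundary -/
theorem poincare : ∀ {j : ℕ} (Y : Pq j → ℝ) (V : BE j → ℝ), Closed j Y → bflux V = flux j Y →
    ∃ I : IE j → ℝ, ∀ p, cur (Sum.elim V I) p = Y p
  | 0, Y, V, _, h => by
    refine ⟨fun e => 0, ?_⟩
    rintro ⟨⟩
    have h' : _ = Y () := h
    rw [← h']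
    unfold cur bflux
    simp [bd]
  | j + 1, Y, V, hY, h => by
    obtain ⟨f, hf⟩ : ∃ f : Fin 4 → Fin 4 → ℝ, ∀ s r, f s r = flux j fun p => Y (s, r, p) :=
      ⟨_, fun _ _ => rfl⟩
    obtain ⟨a, ha⟩ : ∃ a : Fin 4 → Fin 2 → ℝ, ∀ i t, a i t = ∑ k, V (i, pos t k) :=
      ⟨_, fun _ _ => rfl⟩
    have hb : a 0 0 + a 0 1 + (a 1 0 + a 1 1) - (a 2 0 + a 2 1) - (a 3 0 + a 3 1) =
        f 0 0 + f 0 1 + f 0 2 + f 0 3 := by
      have h1 : flux (j + 1) Y = f 0 0 + f 0 1 + f 0 2 + f 0 3 := by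
        rw [hf, hf, hf, hf, ← Fin.sum_univ_four fun r : Fin 4 => flux j fun p => Y (0, r, p)]
        rfl
      rw [← h1, ← h]
      unfold bflux
      rw [sum_pos fun k => V (0, k), sum_pos fun k => V (1, k), sum_pos fun k => V (2, k),
        sum_pos fun k => V (3, k), ha, ha, ha, ha, ha, ha, ha, ha]
    have hs : ∀ s, f s 0 + f s 1 + f s 2 + f s 3 = f 0 0 + f 0 1 + f 0 2 + f 0 3 := by
      intro s
      have h1 := hY.2 s 0
      rw [Fin.sum_univ_four, Fin.sum_univ_four] at h1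
      simpa only [hf] using h1
    -- the sums over the middle paths
    obtain ⟨m, hm⟩ : ∃ m : Fin 4 → Fin 4 → ℝ, ∀ s, m s = ![0,
        a 0 1 + a 1 0 - (f s 0 - a 0 0 + a 3 0) - f s 1, f s 0 - a 0 0 + a 3 0,
        f s 2 + a 2 0 + a 3 1] := ⟨_, fun _ => rfl⟩
    obtain ⟨M, hM⟩ : ∃ M : Fin 4 × Fin 4 × Fin (2 ^ j) → ℝ, ∀ s i k, M (s, i, k) =
        if k = ⟨0, by positivity⟩ then m s i else 0 := ⟨fun x => if x.2.2 = ⟨0, by positivity⟩ then
          m x.1 x.2.1 else 0, fun _ _ _ => rfl⟩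
    have hMs : ∀ s i, ∑ k, M (s, i, k) = m s i := by
      intro s i
      simp only [hM]
      rw [Finset.sum_ite_eq' Finset.univ]
      simp
    have key : ∀ s q : Fin 4, ∃ I : IE j → ℝ, ∀ p, cur (Sum.elim (fun x =>
        (Sum.elim V (Sum.elim M 0 : IE (j + 1) → ℝ) : Ed (j + 1) → ℝ) (emb s q (.inl x))) I) p =
          Y (s, q, p) := by
      intro s q
      refine poincare _ _ (hY.1 s q) ?_
      obtain ⟨h0, h1, h2, h3⟩ := bflux_emb
        (Sum.elim V (Sum.elim M 0 : IE (j + 1) → ℝ) : Ed (j + 1) → ℝ) s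
      rw [← hf s q]
      have e : ∀ i, ∑ k, (Sum.elim V (Sum.elim M 0 : IE (j + 1) → ℝ) : Ed (j + 1) → ℝ)
          (.inr (.inl (s, i, k))) = m s i := fun i => hMs s i
      have e' : ∀ i t, ∑ k, (Sum.elim V (Sum.elim M 0 : IE (j + 1) → ℝ) : Ed (j + 1) → ℝ)
          (.inl (i, pos t k)) = a i t := fun i t => (ha i t).symm
      rw [e, e, e', e', hm] at h0 h1 h2 h3
      have hs' := hs s
      fin_cases q
      · refine h0.trans ?_
        simp
        ring
      · refine h1.trans ?_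
        simp
        ring
      · refine h2.trans ?_
        simp
        ring
      · refine h3.trans ?_
        simp
        linarith
    choose J hJ using key
    refine ⟨(Sum.elim M (fun x => J x.1 x.2.1 x.2.2) : IE (j + 1) → ℝ), ?_⟩
    rintro ⟨s, q, p⟩
    rw [cur_succ, ← hJ s q p]
    congr 1
    funext e
    rcases e with ⟨i, k⟩ | e
    · simp only [emb, Sum.elim_inl]
      rcases side q i with ⟨i', t⟩ | i'
      · rfl
      · rfl
    · rfl

theorem mem_cf {j : ℕ} (Y : EuclideanSpace ℝ (Pq j)) : Y ∈ cf j ↔ Closed j Y := by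
  constructor
  · rintro ⟨A, hA⟩
    have h : (Y : Pq j → ℝ) = cur A := funext hA
    rw [h]
    exact (stokes A).1
  · intro h
    obtain ⟨V, hV⟩ : ∃ V : BE j → ℝ, bflux V = flux j Y := by
      refine ⟨fun x => if x = (0, ⟨0, by positivity⟩) then flux j Y else 0, ?_⟩
      unfold bflux
      simp [Prod.ext_iff]
    obtain ⟨I, hI⟩ := poincare Y V h hV
    exact ⟨Sum.elim V I, fun p => (hI p).symm⟩

/-- the restriction to a block -/
def blkE {j : ℕ} (s r : Fin 4) (Y : EuclideanSpace ℝ (Pq (j + 1))) : EuclideanSpace ℝ (Pq j) :=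
  WithLp.toLp 2 fun p => Y (s, r, p)

theorem cf_zero : cf 0 = ⊤ := by
  refine eq_top_iff.2 fun Y _ => (mem_cf Y).2 trivial

theorem mem_cf_succ {j : ℕ} (Y : EuclideanSpace ℝ (Pq (j + 1))) :
    Y ∈ cf (j + 1) ↔ (∀ s r, blkE s r Y ∈ cf j) ∧
      ∀ s s' : Fin 4, ∑ r : Fin 4, flux j (fun p => Y (s, r, p)) =
        ∑ r : Fin 4, flux j (fun p => Y (s', r, p)) := by
  rw [mem_cf]
  constructor
  · rintro ⟨h1, h2⟩
    exact ⟨fun s r => (mem_cf _).2 (h1 s r), h2⟩
  · rintro ⟨h1, h2⟩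
    exact ⟨fun s r => (mem_cf _).1 (h1 s r), h2⟩

lemma sheet_flux {j : ℕ} {Y : Pq (j + 1) → ℝ} (hY : Closed (j + 1) Y) (s : Fin 4) :
    ∑ r : Fin 4, flux j (fun p => Y (s, r, p)) = flux (j + 1) Y := hY.2 s 0

lemma sum_Pq_succ {j : ℕ} (Y : Pq (j + 1) → ℝ) :
    ∑ p, Y p = ∑ s : Fin 4, ∑ r : Fin 4, ∑ p : Pq j, Y (s, r, p) := by
  have h : ∀ Z : Fin 4 × Fin 4 × Pq j → ℝ, ∑ p, Z p = ∑ s : Fin 4, ∑ r : Fin 4, ∑ p : Pq j,
      Z (s, r, p) := by
    intro Z
    rw [Fintype.sum_prod_type]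
    exact Finset.sum_congr rfl fun s _ => Fintype.sum_prod_type _
  exact h Y

/-- the sum over all plaquettes -/
theorem sum_closed : ∀ {j : ℕ} {Y : Pq j → ℝ}, Closed j Y → ∑ p, Y p = 4 ^ j * flux j Y
  | 0, Y, _ => by
    have h : ∀ Z : Unit → ℝ, ∑ p : Unit, Z p = Z () := fun Z => by simp
    rw [pow_zero, one_mul]
    exact h Y
  | j + 1, Y, hY => by
    rw [sum_Pq_succ]
    have h1 : ∀ s : Fin 4, ∑ r : Fin 4, ∑ p : Pq j, Y (s, r, p) = 4 ^ j * flux (j + 1) Y := by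
      intro s
      rw [← sheet_flux hY s, Finset.mul_sum]
      exact Finset.sum_congr rfl fun r _ => sum_closed (hY.1 s r)
    rw [Finset.sum_congr rfl fun s _ => h1 s]
    simp
    ring

lemma flux_add : ∀ {j : ℕ} (Y Y' : Pq j → ℝ), flux j (Y + Y') = flux j Y + flux j Y'
  | 0, _, _ => rfl
  | j + 1, Y, Y' => by
    show ∑ r : Fin 4, flux j (fun p => (Y + Y') (0, r, p)) = _
    have h : ∀ r : Fin 4, flux j (fun p => (Y + Y') ((0, r, p) : Pq (j + 1))) =
        flux j (fun p => Y (0, r, p)) + flux j (fun p => Y' (0, r, p)) := fun r => flux_add _ _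
    rw [Finset.sum_congr rfl fun r _ => h r, Finset.sum_add_distrib]
    rfl

lemma flux_smul : ∀ {j : ℕ} (c : ℝ) (Y : Pq j → ℝ), flux j (c • Y) = c * flux j Y
  | 0, _, _ => rfl
  | j + 1, c, Y => by
    show ∑ r : Fin 4, flux j (fun p => (c • Y) (0, r, p)) = _
    have h : ∀ r : Fin 4, flux j (fun p => (c • Y) ((0, r, p) : Pq (j + 1))) =
        c * flux j (fun p => Y (0, r, p)) := fun r => flux_smul _ _
    rw [Finset.sum_congr rfl fun r _ => h r, ← Finset.mul_sum]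
    rfl

end

end Pool.Agent.N109.T3
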